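import Pool.Agent.PenroseSlice.Exist

/-! The intersection of the slice with a null cone. -/

open MeasureTheory Filter Topology Set Asymptotics

namespace Pool.Agent.PenroseSlice

open Pool.Agent.PenroseSph

/-- Radial level sets. -/
theorem exists_level {ψ : E3 → ℝ} (hψ : ContinuousOn ψ reg)
    (hmono : ∀ ω : Sp, StrictMono fun t => ψ (pt t ω))
    (hbot : ∀ ω : Sp, Tendsto (fun t => ψ (pt t ω)) atBot atBot)
    (htop : ∀ ω : Sp, Tendsto (fun t => ψ (pt t ω)) atTop atTop) (c : ℝ) :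
    ∃ τ : Sp → ℝ, Continuous τ ∧ ∀ ω, ψ (pt (τ ω) ω) = c := by
  have hc : ∀ ω : Sp, Continuous fun t => ψ (pt t ω) := fun ω =>
    (cont_comp_pt hψ).comp (by fun_prop : Continuous fun t : ℝ => ((t, ω) : ℝ × Sp))
  have hex : ∀ ω : Sp, ∃ t, ψ (pt t ω) = c := fun ω =>
    (hc ω).surjective (htop ω) (hbot ω) c
  choose τ hτ using hex
  refine ⟨τ, ?_, hτ⟩
  rw [continuous_iff_continuousAt]
  intro ω0
  refine tendsto_order.2 ⟨fun a ha => ?_, fun a ha => ?_⟩
  · have h1 : ψ (pt a ω0) < c := by rw [← hτ ω0]; exact hmono ω0 ha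
    have h2 : ∀ᶠ ω in 𝓝 ω0, ψ (pt a ω) < c :=
      (cont_comp_pt' hψ a).continuousAt.eventually (gt_mem_nhds h1)
    filter_upwards [h2] with ω hω
    rw [← hτ ω] at hω
    exact (hmono ω).lt_iff_lt.1 hω
  · have h1 : c < ψ (pt a ω0) := by rw [← hτ ω0]; exact hmono ω0 ha
    have h2 : ∀ᶠ ω in 𝓝 ω0, c < ψ (pt a ω) :=
      (cont_comp_pt' hψ a).continuousAt.eventually (lt_mem_nhds h1)
    filter_upwards [h2] with ω hω
    rw [← hτ ω] at hω
    exact (hmono ω).lt_iff_lt.1 hω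

/-- The algebra of the area form. -/
theorem algebra_area {a b n : Fin 3 → ℝ} {φ B : ℝ} (hn : n 0 ^ 2 + n 1 ^ 2 + n 2 ^ 2 = 1)
    {M : Matrix (Fin 3) (Fin 3) ℝ} (hdet : M.det ≠ 0)
    (hM : ∀ i j, M i j = -(φ * (a i * b j + b i * a j)) / 2 + B * (dl i j - n i * n j)) :
    M.det * ∑ i, ∑ j, M⁻¹ i j * a i * a j = (B * ∑ i, n i * a i) ^ 2 := by
  have h1 : ∀ i j, M⁻¹ i j = M.det⁻¹ * M.adjugate i j := fun i j => by
    rw [Matrix.inv_def, Ring.inverse_eq_inv', Matrix.smul_apply, smul_eq_mul]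
  have h2 : M.det * ∑ i, ∑ j, M⁻¹ i j * a i * a j = ∑ i, ∑ j, M.adjugate i j * a i * a j := by
    rw [Finset.mul_sum]
    refine Finset.sum_congr rfl fun i _ => ?_
    rw [Finset.mul_sum]
    refine Finset.sum_congr rfl fun j _ => ?_
    rw [h1]
    field_simp
  rw [h2, Matrix.adjugate_fin_three]
  simp only [Fin.sum_univ_three, Matrix.of_apply, Matrix.cons_val', Matrix.cons_val_zero,
    Matrix.cons_val_one, Matrix.cons_val_fin_one, Fin.isValue, Matrix.cons_val, hM, dl, ↓reduceIte, Fin.reduceEq,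
    zero_ne_one, one_ne_zero]
  linear_combination (-B ^ 2 * (a 0 ^ 2 + a 1 ^ 2 + a 2 ^ 2)) * hn

section

variable {W : Set (ℝ × ℝ)} {F r : ℝ → ℝ → ℝ} {U V : E3 → ℝ}

theorem slice_apply (x : E3) (i j : Fin 3) : sliceMetric F r U V x i j =
    -(F (U x) (V x) * (pd i U x * pd j V x + pd i V x * pd j U x)) / 2
      + Bf r U V x * (dl i j - x i / ‖x‖ * (x j / ‖x‖)) := rfl

theorem nu_sum {x : E3} (hx : x ∈ reg) : (x 0 / ‖x‖) ^ 2 + (x 1 / ‖x‖) ^ 2 + (x 2 / ‖x‖) ^ 2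
    = 1 := by
  have h := sum_nu_sq (ne_of_reg hx)
  rw [Fin.sum_univ_three] at h
  linarith

theorem area_U (hT : TwoEndedSlice W F r U V) {x : E3} (hx : x ∈ reg) :
    Real.sqrt ((sliceMetric F r U V x).det * ∑ i, ∑ j, (sliceMetric F r U V x)⁻¹ i j
      * pd i U x * pd j U x) / |radialDeriv U x| * ‖x‖ ^ 2 = r (U x) (V x) ^ 2 := by
  have hdet := (hT.spacelike x (ne_of_reg hx)).det_pos.ne'
  have h1 := algebra_area (a := fun i => pd i U x) (b := fun i => pd i V x)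
    (n := fun i => x i / ‖x‖) (nu_sum hx) hdet (slice_apply x)
  have ho := (hT.outward x (ne_of_reg hx)).1
  have h2 : (∑ i, x i / ‖x‖ * pd i U x) = radialDeriv U x := rfl
  simp only at h1
  rw [h1, h2, Real.sqrt_sq_eq_abs, abs_mul, mul_div_assoc, div_self (abs_pos.2 ho.ne).ne',
    mul_one]
  unfold Bf
  have hn : ‖x‖ ≠ 0 := norm_ne_zero_iff.2 (ne_of_reg hx)
  rw [abs_of_nonneg (sq_nonneg _)]
  field_simp

theorem area_V (hT : TwoEndedSlice W F r U V) {x : E3} (hx : x ∈ reg) :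
    Real.sqrt ((sliceMetric F r U V x).det * ∑ i, ∑ j, (sliceMetric F r U V x)⁻¹ i j
      * pd i V x * pd j V x) / |radialDeriv V x| * ‖x‖ ^ 2 = r (U x) (V x) ^ 2 := by
  have hdet := (hT.spacelike x (ne_of_reg hx)).det_pos.ne'
  have h1 := algebra_area (a := fun i => pd i V x) (b := fun i => pd i U x)
    (n := fun i => x i / ‖x‖) (φ := F (U x) (V x)) (B := Bf r U V x) (nu_sum hx) hdet
    (fun i j => by rw [slice_apply]; ring)
  have ho := (hT.outward x (ne_of_reg hx)).2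
  have h2 : (∑ i, x i / ‖x‖ * pd i V x) = radialDeriv V x := rfl
  simp only at h1
  rw [h1, h2, Real.sqrt_sq_eq_abs, abs_mul, mul_div_assoc, div_self (abs_pos.2 ho.ne').ne',
    mul_one]
  unfold Bf
  have hn : ‖x‖ ≠ 0 := norm_ne_zero_iff.2 (ne_of_reg hx)
  rw [abs_of_nonneg (sq_nonneg _)]
  field_simp

theorem strictMono_V (hT : TwoEndedSlice W F r U V) (ω : Sp) :
    StrictMono fun t => V (pt t ω) := by
  refine strictMono_of_hasDerivAt_pos (f' := fun t => Real.exp t * ru V (t, ω))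
    (fun t => hderV hT t ω) fun t => ?_
  have ho := (hT.outward _ (pt_ne_zero t ω)).2
  rw [ru_eq]
  exact mul_pos (Real.exp_pos t) ho

theorem strictMono_U (hT : TwoEndedSlice W F r U V) (ω : Sp) :
    StrictMono fun t => -U (pt t ω) := by
  refine strictMono_of_hasDerivAt_pos (f' := fun t => -(Real.exp t * ru U (t, ω)))
    (fun t => (hderU hT t ω).neg) fun t => ?_
  have ho := (hT.outward _ (pt_ne_zero t ω)).1
  rw [ru_eq]
  have := mul_pos (Real.exp_pos t) (neg_pos.2 ho)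
  simp only
  linarith

theorem log_eq {ρ t : ℝ} {ω : Sp} {ψ : E3 → ℝ} (hmono : StrictMono fun t => ψ (pt t ω))
    (hρ : 0 < ρ) (h : ψ (ρ • (ω : E3)) = ψ (pt t ω)) : ρ = Real.exp t := by
  have h1 : (fun t => ψ (pt t ω)) (Real.log ρ) = (fun t => ψ (pt t ω)) t := by
    simp only
    rw [← h, pt_eq_smul, Real.exp_log hρ]
  rw [← hmono.injective h1, Real.exp_log hρ]

theorem levelArea_le (hS : SphericalSpacetime W F r) (hT : TwoEndedSlice W F r U V) {m : ℝ}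
    {φ : E3 → ℝ} {τ : Sp → ℝ}
    (hφ : ∀ x ∈ reg, Real.sqrt ((sliceMetric F r U V x).det * ∑ i, ∑ j,
      (sliceMetric F r U V x)⁻¹ i j * pd i φ x * pd j φ x) / |radialDeriv φ x| * ‖x‖ ^ 2
        = r (U x) (V x) ^ 2)
    (hle : ∀ ω, r (U (pt (τ ω) ω)) (V (pt (τ ω) ω)) ≤ 2 * m) :
    Real.sqrt (levelArea (sliceMetric F r U V) φ (fun ω => Real.exp (τ ω)) / (16 * Real.pi))
      ≤ m := by
  have hpos : ∀ ω, 0 < r (U (pt (τ ω) ω)) (V (pt (τ ω) ω)) := fun ω =>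
    hS.r_pos _ _ (memW hT (pt_mem (τ ω) ω))
  have hint : levelArea (sliceMetric F r U V) φ (fun ω => Real.exp (τ ω))
      = ∫ ω, r (U (pt (τ ω) ω)) (V (pt (τ ω) ω)) ^ 2 ∂sph := by
    unfold levelArea
    refine integral_congr_ae (Eventually.of_forall fun ω => ?_)
    have h1 := hφ _ (pt_mem (τ ω) ω)
    rw [norm_pt] at h1
    exact h1
  have : Nonempty Sp := (NormedSpace.sphere_nonempty.2 zero_le_one).to_subtype
  have hm0 : 0 ≤ m := by
    obtain ⟨ω⟩ := this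
    linarith [hpos ω, hle ω]
  have hbound : ∫ ω, r (U (pt (τ ω) ω)) (V (pt (τ ω) ω)) ^ 2 ∂sph ≤ 16 * Real.pi * m ^ 2 := by
    have h2 : ∫ ω, r (U (pt (τ ω) ω)) (V (pt (τ ω) ω)) ^ 2 ∂sph ≤ ∫ _ : Sp, (2 * m) ^ 2 ∂sph := by
      refine integral_mono_of_nonneg (Eventually.of_forall fun ω => sq_nonneg _)
        (integrable_const _) (Eventually.of_forall fun ω => ?_)
      exact pow_le_pow_left₀ (hpos ω).le (hle ω) 2
    rw [integral_const, sph_univ, smul_eq_mul] at h2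
    linarith
  rw [hint]
  refine Real.sqrt_le_iff.2 ⟨hm0, ?_⟩
  rw [div_le_iff₀ (by positivity)]
  linarith

/-- The main theorem. -/
theorem penrose_slice (hS : SphericalSpacetime W F r) (hT : TwoEndedSlice W F r U V) {m : ℝ}
    (hm : IsTotalMass (sliceMetric F r U V) m) :
    ∃ (φ : E3 → ℝ) (c : ℝ) (R : Metric.sphere (0 : E3) 1 → ℝ), (φ = U ∨ φ = V) ∧ Continuous R ∧
      (∀ ω, 0 < R ω ∧ φ (R ω • (ω : E3)) = c ∧ ∀ ρ : ℝ, 0 < ρ → φ (ρ • (ω : E3)) = c → ρ = R ω) ∧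
      Real.sqrt (levelArea (sliceMetric F r U V) φ R / (16 * Real.pi)) ≤ m := by
  obtain ⟨x0, hx0, hor, hr⟩ := exists_marginal hS hT hm
  have hbot : Tendsto Real.exp atBot (𝓝[>] 0) := Real.tendsto_exp_atBot_nhdsGT
  rcases hor with hz | hz
  · -- the cone `V = V x0`
    obtain ⟨τ, hτc, hτ⟩ := exists_level (cdV hT).continuousOn (strictMono_V hT)
      (fun ω => (hT.V_inner ω).comp hbot) (fun ω => (hT.V_outer ω).comp Real.tendsto_exp_atTop)
      (V x0)
    refine ⟨V, V x0, fun ω => Real.exp (τ ω), Or.inr rfl, by fun_prop, fun ω =>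
      ⟨Real.exp_pos _, hτ ω, fun ρ hρ h => log_eq (strictMono_V hT ω) hρ (h.trans (hτ ω).symm)⟩,
      levelArea_le hS hT (fun x hx => area_V hT hx) fun ω => ?_⟩
    refine le_trans ?_ hr
    have h1 := memW hT (pt_mem (τ ω) ω)
    rw [hτ ω] at h1 ⊢
    exact r_le_of_dU_eq_zero hS (memW hT hx0) h1 hz
  · -- the cone `U = U x0`
    obtain ⟨τ, hτc, hτ⟩ := exists_level (ψ := fun x => -U x) (cdU hT).continuousOn.neg
      (strictMono_U hT)
      (fun ω => tendsto_neg_atTop_atBot.comp ((hT.U_inner ω).comp hbot))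
      (fun ω => tendsto_neg_atBot_atTop.comp ((hT.U_outer ω).comp Real.tendsto_exp_atTop))
      (-U x0)
    have hτ' : ∀ ω, U (pt (τ ω) ω) = U x0 := fun ω => neg_injective (hτ ω)
    refine ⟨U, U x0, fun ω => Real.exp (τ ω), Or.inl rfl, by fun_prop, fun ω =>
      ⟨Real.exp_pos _, hτ' ω, fun ρ hρ h => log_eq (ψ := fun x => -U x) (strictMono_U hT ω) hρ
        (congrArg Neg.neg (h.trans (hτ' ω).symm))⟩,
      levelArea_le hS hT (fun x hx => area_U hT hx) fun ω => ?_⟩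
    refine le_trans ?_ hr
    have h1 := memW hT (pt_mem (τ ω) ω)
    rw [hτ' ω] at h1 ⊢
    exact r_le_of_dV_eq_zero hS (memW hT hx0) h1 hz

end

end Pool.Agent.PenroseSlice
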