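import Pool.Agent.PenroseSlice.Flux

/-! Uniform decay along rays. -/

open MeasureTheory Filter Topology Set Asymptotics

namespace Pool.Agent.PenroseSlice

open Pool.Agent.PenroseSph

/-- unit sphere -/
abbrev Sp := Metric.sphere (0 : E3) 1

/-- infinity, uniformly in the direction -/
abbrev li : Filter (ℝ × Sp) := atTop ×ˢ (⊤ : Filter Sp)

/-- `e^{-t}` -/
noncomputable def ee (p : ℝ × Sp) : ℝ := Real.exp (-p.1)

/-- component of the direction -/
noncomputable def nu (i : Fin 3) (p : ℝ × Sp) : ℝ := (p.2 : E3) i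

theorem tendsto_ee : Tendsto ee li (𝓝 0) :=
  Real.tendsto_exp_neg_atTop_nhds_zero.comp tendsto_fst

theorem nu_sq (p : ℝ × Sp) : nu 0 p ^ 2 + nu 1 p ^ 2 + nu 2 p ^ 2 = 1 := by
  have h1 := norm_sq_eq (p.2 : E3)
  rw [norm_eq_of_mem_sphere p.2] at h1
  unfold nu
  linarith

theorem nu_O (i : Fin 3) : nu i =O[li] fun _ => (1 : ℝ) := by
  refine IsBigO.of_bound 1 (Eventually.of_forall fun p => ?_)
  have h := nu_sq p
  simp only [Real.norm_eq_abs, norm_one, mul_one]
  rw [abs_le_one_iff_mul_self_le_one]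
  fin_cases i <;> simp only [Fin.zero_eta, Fin.mk_one, Fin.reduceFinMk] <;>
    nlinarith [sq_nonneg (nu 0 p), sq_nonneg (nu 1 p), sq_nonneg (nu 2 p)]

/-- Kronecker delta as a field -/
noncomputable def dd (i j : Fin 3) (_ : ℝ × Sp) : ℝ := dl i j

section defs

variable (G Gd : Fin 3 → Fin 3 → ℝ × Sp → ℝ)

/-- radial part -/
noncomputable def gA (p : ℝ × Sp) : ℝ := ∑ i, ∑ j, G i j p * nu i p * nu j p

/-- flux part -/
noncomputable def gw (k : Fin 3) (p : ℝ × Sp) : ℝ := (∑ j, G k j p * nu j p) - gA G p * nu k p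

/-- Schur complement -/
noncomputable def gN (i j : Fin 3) (p : ℝ × Sp) : ℝ :=
  G i j p - gA G p * nu i p * nu j p - gw G i p * nu j p - nu i p * gw G j p
    - gw G i p * gw G j p * (gA G p)⁻¹

/-- its derivative -/
noncomputable def gNd (i j : Fin 3) (p : ℝ × Sp) : ℝ :=
  Gd i j p - gA Gd p * nu i p * nu j p - gw Gd i p * nu j p - nu i p * gw Gd j p
    - ((gw Gd i p * gw G j p + gw G i p * gw Gd j p) * (gA G p)⁻¹
      + gw G i p * gw G j p * (-gA Gd p * ((gA G p)⁻¹ * (gA G p)⁻¹)))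

/-- trace -/
noncomputable def gtr (N : Fin 3 → Fin 3 → ℝ × Sp → ℝ) (p : ℝ × Sp) : ℝ :=
  N 0 0 p + N 1 1 p + N 2 2 p

/-- trace free part -/
noncomputable def gX (N : Fin 3 → Fin 3 → ℝ × Sp → ℝ) (i j : Fin 3) (p : ℝ × Sp) : ℝ :=
  N i j p - (1 / 2) * gtr N p * (dl i j - nu i p * nu j p)

end defs

section bounds

variable {G Gd : Fin 3 → Fin 3 → ℝ × Sp → ℝ}

theorem O_mul_nu {f : ℝ × Sp → ℝ} (hf : f =O[li] ee) (i : Fin 3) :
    (fun p => f p * nu i p) =O[li] ee := by
  simpa using hf.mul (nu_O i)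

theorem O_nu_mul {f : ℝ × Sp → ℝ} (hf : f =O[li] ee) (i : Fin 3) :
    (fun p => nu i p * f p) =O[li] ee := by
  simpa using (nu_O i).mul hf

theorem gA_O (hG : ∀ i j, G i j =O[li] ee) : gA G =O[li] ee := by
  unfold gA
  exact IsBigO.fun_sum fun i _ => IsBigO.fun_sum fun j _ => O_mul_nu (O_mul_nu (hG i j) i) j

theorem gw_O (hG : ∀ i j, G i j =O[li] ee) (k : Fin 3) : gw G k =O[li] ee := by
  unfold gw
  exact (IsBigO.fun_sum fun j _ => O_mul_nu (hG k j) j).sub (O_mul_nu (gA_O hG) k)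

theorem gA_sub_one (p : ℝ × Sp) : gA G p - 1 = gA (fun i j q => G i j q - dd i j q) p := by
  have h := nu_sq p
  unfold gA dd dl
  simp only [Fin.sum_univ_three, Fin.isValue, ↓reduceIte, Fin.reduceEq, zero_ne_one, one_ne_zero]
  linear_combination h

theorem gw_eq_sub (k : Fin 3) (p : ℝ × Sp) :
    gw G k p = gw (fun i j q => G i j q - dd i j q) k p := by
  have h := gA_sub_one (G := G) p
  unfold gw
  rw [← h]
  unfold dd dl
  simp only [Fin.sum_univ_three, Fin.isValue]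
  fin_cases k <;> simp <;> ring

variable (hG : ∀ i j, (fun p => G i j p - dd i j p) =O[li] ee)

include hG in
theorem gA_sub_one_O : (fun p => gA G p - 1) =O[li] ee := by
  have h1 := gA_O hG
  refine h1.congr' (Eventually.of_forall fun p => ?_) EventuallyEq.rfl
  exact (gA_sub_one p).symm

include hG in
theorem gw_O' (k : Fin 3) : gw G k =O[li] ee := by
  have h1 := gw_O hG k
  refine h1.congr' (Eventually.of_forall fun p => ?_) EventuallyEq.rfl
  exact (gw_eq_sub k p).symm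

include hG in
theorem tendsto_gA : Tendsto (gA G) li (𝓝 1) := by
  have h1 := (gA_sub_one_O hG).trans_tendsto tendsto_ee
  simpa using h1.add_const 1

include hG in
theorem gAinv_O : (fun p => (gA G p)⁻¹) =O[li] fun _ => (1 : ℝ) :=
  ((tendsto_gA hG).inv₀ one_ne_zero).isBigO_one ℝ

theorem ee_O_one : ee =O[li] fun _ => (1 : ℝ) := tendsto_ee.isBigO_one ℝ

theorem O_mul_one {f h : ℝ × Sp → ℝ} (hf : f =O[li] ee) (hh : h =O[li] fun _ => (1 : ℝ)) :
    (fun p => f p * h p) =O[li] ee := by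
  simpa using hf.mul hh

theorem O_mul {f h : ℝ × Sp → ℝ} (hf : f =O[li] ee) (hh : h =O[li] ee) :
    (fun p => f p * h p) =O[li] ee := O_mul_one hf (hh.trans ee_O_one)

include hG in
theorem gN_O (i j : Fin 3) : (fun p => gN G i j p - (dl i j - nu i p * nu j p)) =O[li] ee := by
  have h1 : (fun p => (G i j p - dd i j p) - (gA G p - 1) * nu i p * nu j p - gw G i p * nu j p
      - nu i p * gw G j p - gw G i p * gw G j p * (gA G p)⁻¹) =O[li] ee :=
    ((((hG i j).sub (O_mul_nu (O_mul_nu (gA_sub_one_O hG) i) j)).sub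
      (O_mul_nu (gw_O' hG i) j)).sub (O_nu_mul (gw_O' hG j) i)).sub
      (O_mul_one (O_mul (gw_O' hG i) (gw_O' hG j)) (gAinv_O hG))
  refine h1.congr' (Eventually.of_forall fun p => ?_) EventuallyEq.rfl
  unfold gN dd
  ring

include hG in
theorem gtr_gN_O : (fun p => gtr (gN G) p - 2) =O[li] ee := by
  have h1 := ((gN_O hG 0 0).add (gN_O hG 1 1)).add (gN_O hG 2 2)
  refine h1.congr' (Eventually.of_forall fun p => ?_) EventuallyEq.rfl
  have h := nu_sq p
  unfold gtr dl
  simp only [↓reduceIte]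
  linear_combination h

include hG in
theorem gX_gN_O (i j : Fin 3) : gX (gN G) i j =O[li] ee := by
  have hP : (fun p : ℝ × Sp => (1 / 2 : ℝ) * (dl i j - nu i p * nu j p)) =O[li]
      fun _ => (1 : ℝ) := by
    have h2 : (fun p : ℝ × Sp => nu i p * nu j p) =O[li] fun _ => (1 : ℝ) := by
      simpa using (nu_O i).mul (nu_O j)
    exact ((isBigO_const_const (dl i j) one_ne_zero li).sub h2).const_mul_left _
  have h1 := (gN_O hG i j).sub (O_mul_one (gtr_gN_O hG) hP)
  refine h1.congr' (Eventually.of_forall fun p => ?_) EventuallyEq.rfl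
  unfold gX
  ring

variable (hGd : ∀ i j, Gd i j =O[li] ee)

include hG hGd in
theorem gNd_O (i j : Fin 3) : gNd G Gd i j =O[li] ee := by
  have hA := gA_O hGd
  have hw := gw_O hGd
  have hw' := gw_O' hG
  have hi := gAinv_O hG
  have hi2 : (fun p => (gA G p)⁻¹ * (gA G p)⁻¹) =O[li] fun _ => (1 : ℝ) := by
    simpa using hi.mul hi
  unfold gNd
  exact ((((hGd i j).sub (O_mul_nu (O_mul_nu hA i) j)).sub (O_mul_nu (hw i) j)).sub
    (O_nu_mul (hw j) i)).sub
    ((O_mul_one ((O_mul (hw i) (hw' j)).add (O_mul (hw' i) (hw j))) hi).add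
      (O_mul (O_mul (hw' i) (hw' j)) (O_mul_one hA.neg_left hi2)))

include hG hGd in
theorem gXd_O (i j : Fin 3) : gX (gNd G Gd) i j =O[li] ee := by
  have hP : (fun p : ℝ × Sp => (dl i j - nu i p * nu j p)) =O[li]
      fun _ => (1 : ℝ) := by
    have h2 : (fun p : ℝ × Sp => nu i p * nu j p) =O[li] fun _ => (1 : ℝ) := by
      simpa using (nu_O i).mul (nu_O j)
    exact (isBigO_const_const (dl i j) one_ne_zero li).sub h2
  have h3 : gtr (gNd G Gd) =O[li] ee :=
    ((gNd_O hG hGd 0 0).add (gNd_O hG hGd 1 1)).add (gNd_O hG hGd 2 2)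
  exact (gNd_O hG hGd i j).sub (O_mul_one (h3.const_mul_left (1 / 2)) hP)

end bounds

/-- Derivative of the norm of a vector-valued function. -/
theorem abs_deriv_le_of_sq_eq {ι : Type*} (s : Finset ι) {y : ℝ → ℝ} {z : ι → ℝ → ℝ} {yd t : ℝ}
    {zd : ι → ℝ} (hy0 : ∀ᶠ u in 𝓝 t, 0 ≤ y u) (hy : HasDerivAt y yd t)
    (hz : ∀ k ∈ s, HasDerivAt (z k) (zd k) t)
    (heq : ∀ᶠ u in 𝓝 t, y u ^ 2 = 2 * ∑ k ∈ s, z k u ^ 2) : |yd| ≤ 2 * ∑ k ∈ s, |zd k| := by
  have ht := hy0.self_of_nhds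
  have h1 : HasDerivAt (fun u => y u ^ 2) (2 * y t * yd) t := by
    refine (hy.pow 2).congr_deriv ?_
    simp
  have h2 : HasDerivAt (fun u => 2 * ∑ k ∈ s, z k u ^ 2) (2 * ∑ k ∈ s, 2 * z k t * zd k) t := by
    refine (HasDerivAt.fun_sum fun k hk => ?_).const_mul 2
    refine ((hz k hk).pow 2).congr_deriv ?_
    simp
  have h3 := h1.unique (h2.congr_of_eventuallyEq heq)
  rcases ht.eq_or_lt with h0 | hpos
  · have hmin : IsLocalMin y t := by
      filter_upwards [hy0] with u hu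
      rw [← h0]; exact hu
    rw [hmin.hasDerivAt_eq_zero hy, abs_zero]
    exact mul_nonneg (by norm_num) (Finset.sum_nonneg fun k _ => abs_nonneg _)
  · have hsq := heq.self_of_nhds
    have hzle : ∀ k ∈ s, |z k t| ≤ y t := by
      intro k hk
      have h4 : z k t ^ 2 ≤ ∑ k ∈ s, z k t ^ 2 :=
        Finset.single_le_sum (f := fun k => z k t ^ 2) (fun _ _ => sq_nonneg _) hk
      have h5 : z k t ^ 2 ≤ y t ^ 2 := by
        have := sq_nonneg (z k t)
        nlinarith
      exact abs_le_of_sq_le_sq h5 hpos.le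
    have h6 : |∑ k ∈ s, z k t * zd k| ≤ y t * ∑ k ∈ s, |zd k| := by
      refine (Finset.abs_sum_le_sum_abs _ _).trans ?_
      rw [Finset.mul_sum]
      refine Finset.sum_le_sum fun k hk => ?_
      rw [abs_mul]
      exact mul_le_mul_of_nonneg_right (hzle k hk) (abs_nonneg _)
    have h7 : y t * yd = 2 * ∑ k ∈ s, z k t * zd k := by
      have : ∑ k ∈ s, 2 * z k t * zd k = 2 * ∑ k ∈ s, z k t * zd k := by
        rw [Finset.mul_sum]
        exact Finset.sum_congr rfl fun k _ => by ring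
      rw [this] at h3
      linarith
    have h8 : y t * |yd| ≤ y t * (2 * ∑ k ∈ s, |zd k|) := by
      rw [← abs_of_pos hpos, ← abs_mul, abs_of_pos hpos, h7, abs_mul, abs_two]
      linarith
    exact le_of_mul_le_mul_left h8 hpos

end Pool.Agent.PenroseSlice
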