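import Pool.Agent.PenroseSlice.Asym

/-! Uniform decay of the area radius from the decay of the metric. -/

open MeasureTheory Filter Topology Set Asymptotics

namespace Pool.Agent.PenroseSlice

open Pool.Agent.PenroseSph

section derivs

variable {G Gd : Fin 3 → Fin 3 → ℝ × Sp → ℝ}
  (hder : ∀ i j t (ω : Sp), HasDerivAt (fun s => G i j (s, ω)) (Gd i j (t, ω)) t)

include hder in
theorem hd_gA (t : ℝ) (ω : Sp) : HasDerivAt (fun s => gA G (s, ω)) (gA Gd (t, ω)) t := by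
  unfold gA
  exact HasDerivAt.fun_sum fun i _ => HasDerivAt.fun_sum fun j _ =>
    ((hder i j t ω).mul_const (nu i (t, ω))).mul_const (nu j (t, ω))

include hder in
theorem hd_gw (k : Fin 3) (t : ℝ) (ω : Sp) :
    HasDerivAt (fun s => gw G k (s, ω)) (gw Gd k (t, ω)) t := by
  unfold gw
  exact (HasDerivAt.fun_sum fun j _ => (hder k j t ω).mul_const (nu j (t, ω))).sub
    ((hd_gA hder t ω).mul_const (nu k (t, ω)))

include hder in
theorem hd_gN (i j : Fin 3) (t : ℝ) (ω : Sp) (hA : gA G (t, ω) ≠ 0) :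
    HasDerivAt (fun s => gN G i j (s, ω)) (gNd G Gd i j (t, ω)) t := by
  have hw := fun k => hd_gw hder k t ω
  have hA' := hd_gA hder t ω
  have h1 := ((((hder i j t ω).sub ((hA'.mul_const (nu i (t, ω))).mul_const (nu j (t, ω)))).sub
    ((hw i).mul_const (nu j (t, ω)))).sub ((hw j).const_mul (nu i (t, ω)))).sub
    (((hw i).mul (hw j)).mul (hA'.inv hA))
  have h2 : HasDerivAt (fun s => gN G i j (s, ω)) _ t := h1
  refine h2.congr_deriv ?_
  unfold gNd
  simp only [Pi.mul_apply, Pi.inv_apply]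
  field_simp

include hder in
theorem hd_gtr (t : ℝ) (ω : Sp) (hA : gA G (t, ω) ≠ 0) :
    HasDerivAt (fun s => gtr (gN G) (s, ω)) (gtr (gNd G Gd) (t, ω)) t :=
  ((hd_gN hder 0 0 t ω hA).add (hd_gN hder 1 1 t ω hA)).add (hd_gN hder 2 2 t ω hA)

include hder in
theorem hd_gX (i j : Fin 3) (t : ℝ) (ω : Sp) (hA : gA G (t, ω) ≠ 0) :
    HasDerivAt (fun s => gX (gN G) i j (s, ω)) (gX (gNd G Gd) i j (t, ω)) t :=
  (hd_gN hder i j t ω hA).sub (((hd_gtr hder t ω hA).const_mul (1 / 2)).mul_const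
    (dl i j - nu i (t, ω) * nu j (t, ω)))

end derivs

section radius

variable {G Gd : Fin 3 → Fin 3 → ℝ × Sp → ℝ} {B Bd : ℝ × Sp → ℝ} {c : Fin 3 → ℝ × Sp → ℝ}
  (hN : ∀ i j p, gN G i j p = B p * (dl i j - nu i p * nu j p) - c i p * c j p)
  (hc : ∀ p, nu 0 p * c 0 p + nu 1 p * c 1 p + nu 2 p * c 2 p = 0)

include hN hc in
theorem gtr_eq (p : ℝ × Sp) :
    gtr (gN G) p = 2 * B p - (c 0 p ^ 2 + c 1 p ^ 2 + c 2 p ^ 2) := by
  have h := nu_sq p
  unfold gtr
  simp only [hN, dl, ↓reduceIte]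
  linear_combination (-B p) * h

include hN hc in
theorem y_nonneg (p : ℝ × Sp) : 0 ≤ 2 * B p - gtr (gN G) p := by
  rw [gtr_eq hN hc]
  nlinarith [sq_nonneg (c 0 p), sq_nonneg (c 1 p), sq_nonneg (c 2 p)]

include hN hc in
theorem y_sq (p : ℝ × Sp) : (2 * B p - gtr (gN G) p) ^ 2
    = 2 * ∑ k : Fin 3 × Fin 3, gX (gN G) k.1 k.2 p ^ 2 := by
  have h := nu_sq p
  have h2 := hc p
  rw [Fintype.sum_prod_type]
  simp only [Fin.sum_univ_three, gX, gtr_eq hN hc, hN, dl, Fin.isValue, ↓reduceIte,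
    Fin.reduceEq, zero_ne_one, one_ne_zero]
  set a := nu 0 p
  set b := nu 1 p
  set d := nu 2 p
  set x := c 0 p
  set y := c 1 p
  set z := c 2 p
  set β := B p
  have h3 : a ^ 2 = 1 - b ^ 2 - d ^ 2 := by linarith
  -- express everything through `(|ν|² - 1)` and `ν · c`
  have key : ∀ S : ℝ, (2 * β - (2 * β - S)) ^ 2 = S ^ 2 := fun S => by ring
  rw [key]
  linear_combination (-(x ^ 2 + y ^ 2 + z ^ 2) ^ 2 / 2 * (a ^ 2 + b ^ 2 + d ^ 2 + 1)
    + (x ^ 2 + y ^ 2 + z ^ 2) ^ 2) * h - (2 * (x ^ 2 + y ^ 2 + z ^ 2)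
      * (a * x + b * y + d * z)) * h2

include hN hc in
theorem abs_y_le (p : ℝ × Sp) : |2 * B p - gtr (gN G) p|
    ≤ 2 * ∑ k : Fin 3 × Fin 3, |gX (gN G) k.1 k.2 p| := by
  have h0 : 0 ≤ ∑ k : Fin 3 × Fin 3, |gX (gN G) k.1 k.2 p| :=
    Finset.sum_nonneg fun _ _ => abs_nonneg _
  refine abs_le_of_sq_le_sq ?_ (by linarith)
  rw [y_sq hN hc]
  have h1 : ∑ k : Fin 3 × Fin 3, gX (gN G) k.1 k.2 p ^ 2
      ≤ (∑ k : Fin 3 × Fin 3, |gX (gN G) k.1 k.2 p|) ^ 2 := by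
    rw [sq, Finset.sum_mul]
    refine Finset.sum_le_sum fun k hk => ?_
    rw [← sq_abs, sq]
    exact mul_le_mul_of_nonneg_left (Finset.single_le_sum
      (f := fun k : Fin 3 × Fin 3 => |gX (gN G) k.1 k.2 p|) (fun _ _ => abs_nonneg _) hk)
      (abs_nonneg _)
  nlinarith

variable (hG : ∀ i j, (fun p => G i j p - dd i j p) =O[li] ee)

include hN hc hG in
theorem B_sub_one_O : (fun p => B p - 1) =O[li] ee := by
  have h1 : (fun p => 2 * B p - gtr (gN G) p) =O[li] ee := by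
    have h2 : (fun p => 2 * ∑ k : Fin 3 × Fin 3, |gX (gN G) k.1 k.2 p|) =O[li] ee :=
      (IsBigO.fun_sum fun k _ => (gX_gN_O hG k.1 k.2).abs_left).const_mul_left 2
    refine IsBigO.trans (IsBigO.of_bound 1 (Eventually.of_forall fun p => ?_)) h2
    rw [Real.norm_eq_abs, Real.norm_eq_abs, one_mul]
    exact (abs_y_le hN hc p).trans (le_abs_self _)
  have h3 := (h1.add (gtr_gN_O hG)).const_mul_left (1 / 2)
  refine h3.congr' (Eventually.of_forall fun p => ?_) EventuallyEq.rfl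
  simp only
  ring

variable (hGd : ∀ i j, Gd i j =O[li] ee)
  (hder : ∀ i j t (ω : Sp), HasDerivAt (fun s => G i j (s, ω)) (Gd i j (t, ω)) t)
  (hB : ∀ t (ω : Sp), HasDerivAt (fun s => B (s, ω)) (Bd (t, ω)) t)
  (hA : ∀ p, 0 < gA G p)

include hN hc hG hGd hder hB hA in
theorem Bd_O : Bd =O[li] ee := by
  have h1 : (fun p => 2 * Bd p - gtr (gNd G Gd) p) =O[li] ee := by
    have h2 : (fun p => 2 * ∑ k : Fin 3 × Fin 3, |gX (gNd G Gd) k.1 k.2 p|) =O[li] ee :=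
      (IsBigO.fun_sum fun k _ => (gXd_O hG hGd k.1 k.2).abs_left).const_mul_left 2
    refine IsBigO.trans (IsBigO.of_bound 1 (Eventually.of_forall fun p => ?_)) h2
    rw [Real.norm_eq_abs, Real.norm_eq_abs, one_mul]
    refine le_trans ?_ (le_abs_self _)
    obtain ⟨t, ω⟩ := p
    refine abs_deriv_le_of_sq_eq (t := t) (y := fun s => 2 * B (s, ω) - gtr (gN G) (s, ω))
      (z := fun (k : Fin 3 × Fin 3) s => gX (gN G) k.1 k.2 (s, ω)) Finset.univ
      (Eventually.of_forall fun s => y_nonneg hN hc (s, ω))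
      (((hB t ω).const_mul 2).sub (hd_gtr hder t ω (hA _).ne'))
      (fun k _ => hd_gX hder k.1 k.2 t ω (hA _).ne')
      (Eventually.of_forall fun s => y_sq hN hc (s, ω))
  have h4 : gtr (gNd G Gd) =O[li] ee :=
    ((gNd_O hG hGd 0 0).add (gNd_O hG hGd 1 1)).add (gNd_O hG hGd 2 2)
  have h3 := (h1.add h4).const_mul_left (1 / 2)
  refine h3.congr' (Eventually.of_forall fun p => ?_) EventuallyEq.rfl
  simp only
  ring

end radius

end Pool.Agent.PenroseSlice
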