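import Pool.Agent.PenroseSph.Defs

/-!
Slices of spherically symmetric spacetimes in double null coordinates.
-/

open MeasureTheory Filter Topology

namespace Pool.Agent.PenroseSlice

open Pool.Agent.PenroseSph

/-- The partial derivative in the first variable. -/
noncomputable def dU (f : ℝ → ℝ → ℝ) (u v : ℝ) : ℝ := deriv (fun s => f s v) u

/-- The partial derivative in the second variable. -/
noncomputable def dV (f : ℝ → ℝ → ℝ) (u v : ℝ) : ℝ := deriv (fun s => f u s) v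

/-- A spherically symmetric spacetime `W × S²` with metric `-F du dv + r² dω²` in double null
coordinates `(u, v) ∈ W`, whose null rays are intervals, and whose energy-momentum tensor
satisfies `T_uu ≥ 0`, `T_vv ≥ 0` and `T_uv ≥ 0` (consequences of the dominant energy condition),
written with the Einstein equations in terms of `F` and `r`. -/
structure SphericalSpacetime (W : Set (ℝ × ℝ)) (F r : ℝ → ℝ → ℝ) : Prop where
  isOpen : IsOpen W
  convex_u : ∀ v, Set.OrdConnected {u | (u, v) ∈ W}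
  convex_v : ∀ u, Set.OrdConnected {v | (u, v) ∈ W}
  F_pos : ∀ u v, (u, v) ∈ W → 0 < F u v
  r_pos : ∀ u v, (u, v) ∈ W → 0 < r u v
  contDiff_F : ContDiffOn ℝ 2 (fun p : ℝ × ℝ => F p.1 p.2) W
  contDiff_r : ContDiffOn ℝ 2 (fun p : ℝ × ℝ => r p.1 p.2) W
  energy_uu : ∀ u v, (u, v) ∈ W → dU (fun a b => dU r a b / F a b) u v ≤ 0
  energy_vv : ∀ u v, (u, v) ∈ W → dV (fun a b => dV r a b / F a b) u v ≤ 0
  energy_uv : ∀ u v, (u, v) ∈ W →
    0 ≤ r u v * dU (dV r) u v + dU r u v * dV r u v + F u v / 4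

/-- The radial derivative `∂f/∂ν`, `ν = x/|x|`. -/
noncomputable def radialDeriv (f : E3 → ℝ) (x : E3) : ℝ := ∑ i, (x i / ‖x‖) * pd i f x

/-- The metric induced on the hypersurface `x ↦ (U x, V x, x/|x|)` of the spacetime:
`g_ij = -F (∂_i U ∂_j V + ∂_i V ∂_j U)/2 + (r/|x|)² (δ_ij - ν_i ν_j)`. -/
noncomputable def sliceMetric (F r : ℝ → ℝ → ℝ) (U V : E3 → ℝ) : TensorField := fun x =>
  Matrix.of fun i j =>
    -(F (U x) (V x) * (pd i U x * pd j V x + pd i V x * pd j U x)) / 2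
      + (r (U x) (V x) / ‖x‖) ^ 2 * ((if i = j then 1 else 0) - (x i / ‖x‖) * (x j / ‖x‖))

/-- `√(g(ν,ν))` times the derivative of the area radius `r` in the direction of the future unit
normal of a spherically symmetric slice; this is `√(g(ν,ν)) r/2` times the trace of the second
fundamental form over the coordinate sphere. -/
noncomputable def normalRate (r : ℝ → ℝ → ℝ) (U V : E3 → ℝ) (x : E3) : ℝ :=
  dV r (U x) (V x) * radialDeriv V x - dU r (U x) (V x) * radialDeriv U x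

/-- A two-ended spacelike slice `x ↦ (U x, V x, x/|x|)`, `x ≠ 0`, of the spacetime, not assumed
to be symmetric. The special end is `|x| → ∞`, and the slice is asymptotically flat there. At
both ends the double null coordinates tend to infinity along every ray, and the area radius tends
to infinity along the rays to the other end `x → 0`. -/
structure TwoEndedSlice (W : Set (ℝ × ℝ)) (F r : ℝ → ℝ → ℝ) (U V : E3 → ℝ) : Prop where
  contDiff_U : ContDiffOn ℝ 2 U {0}ᶜ
  contDiff_V : ContDiffOn ℝ 2 V {0}ᶜ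
  mem : ∀ x : E3, x ≠ 0 → (U x, V x) ∈ W
  spacelike : ∀ x : E3, x ≠ 0 → (sliceMetric F r U V x).PosDef
  outward : ∀ x : E3, x ≠ 0 → radialDeriv U x < 0 ∧ 0 < radialDeriv V x
  U_inner : ∀ ω : Metric.sphere (0 : E3) 1,
    Tendsto (fun ρ : ℝ => U (ρ • (ω : E3))) (𝓝[>] 0) atTop
  U_outer : ∀ ω : Metric.sphere (0 : E3) 1,
    Tendsto (fun ρ : ℝ => U (ρ • (ω : E3))) atTop atBot
  V_inner : ∀ ω : Metric.sphere (0 : E3) 1,
    Tendsto (fun ρ : ℝ => V (ρ • (ω : E3))) (𝓝[>] 0) atBot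
  V_outer : ∀ ω : Metric.sphere (0 : E3) 1,
    Tendsto (fun ρ : ℝ => V (ρ • (ω : E3))) atTop atTop
  r_inner : ∀ ω : Metric.sphere (0 : E3) 1,
    Tendsto (fun ρ : ℝ => r (U (ρ • (ω : E3))) (V (ρ • (ω : E3)))) (𝓝[>] 0) atTop
  decay : ∃ C R : ℝ, ∀ x : E3, R ≤ ‖x‖ → |normalRate r U V x| ≤ C / ‖x‖ ∧ ∀ i j,
    |sliceMetric F r U V x i j - (1 : Matrix (Fin 3) (Fin 3) ℝ) i j| ≤ C / ‖x‖ ∧
    ∀ k, |pd k (fun y => sliceMetric F r U V y i j) x| ≤ C / ‖x‖ ^ 2

/-- The `g`-area of the surface `{R(ω) ω}` when it is a regular level set of `φ`: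
the integral over the unit sphere of `√(det g · g^{ij} ∂_iφ ∂_jφ) |∂φ/∂ν|⁻¹ R²`. -/
noncomputable def levelArea (g : TensorField) (φ : E3 → ℝ)
    (R : Metric.sphere (0 : E3) 1 → ℝ) : ℝ :=
  ∫ ω : Metric.sphere (0 : E3) 1,
    Real.sqrt ((g (R ω • (ω : E3))).det * ∑ i, ∑ j, (g (R ω • (ω : E3)))⁻¹ i j
      * pd i φ (R ω • (ω : E3)) * pd j φ (R ω • (ω : E3)))
      / |radialDeriv φ (R ω • (ω : E3))| * R ω ^ 2 ∂((volume : Measure E3).toSphere)

end Pool.Agent.PenroseSlice
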