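import Pool.Agent.PenroseSlice.Energy

/-! Existence of a marginal point with controlled area radius. -/

open MeasureTheory Filter Topology Set Asymptotics

namespace Pool.Agent.PenroseSlice

open Pool.Agent.PenroseSph

theorem bound_of_O {f : ℝ × Sp → ℝ} (hf : f =O[li] ee) :
    ∃ C t1 : ℝ, ∀ t, t1 ≤ t → ∀ ω, |f (t, ω)| ≤ C * Real.exp (-t) := by
  obtain ⟨C, hC⟩ := hf.bound
  obtain ⟨t1, ht1⟩ := exists_of_eventually_li hC
  refine ⟨C, t1, fun t ht ω => ?_⟩
  have := ht1 t ht ω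
  simpa [ee, Real.abs_exp] using this

theorem abs_mn_le_of_bound {H : Sp → ℝ} {c : ℝ} (hc : ∀ ω, |H ω| ≤ c) : |mn H| ≤ c := by
  unfold mn
  have h1 : ‖∫ ω, H ω ∂sph‖ ≤ c * sph.real univ :=
    norm_integral_le_of_norm_le_const (Eventually.of_forall fun ω => by
      rw [Real.norm_eq_abs]; exact hc ω)
  rw [sph_univ, Real.norm_eq_abs] at h1
  have hpi := Real.pi_pos
  rw [abs_mul, abs_of_pos (by positivity : (0 : ℝ) < (4 * Real.pi)⁻¹)]
  calc (4 * Real.pi)⁻¹ * |∫ ω, H ω ∂sph| ≤ (4 * Real.pi)⁻¹ * (c * (4 * Real.pi)) :=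
        mul_le_mul_of_nonneg_left h1 (by positivity)
    _ = c := by field_simp

section

variable {W : Set (ℝ × ℝ)} {F r : ℝ → ℝ → ℝ} {U V : E3 → ℝ}

theorem tendsto_Rf (hS : SphericalSpacetime W F r) (hT : TwoEndedSlice W F r U V) :
    Tendsto (Rf F r U V) atTop (𝓝 0) := by
  obtain ⟨C, t1, hC⟩ := bound_of_O (mass_O hS hT)
  have h1 : Tendsto (fun t : ℝ => C * Real.exp (-t)) atTop (𝓝 0) := by
    simpa using Real.tendsto_exp_neg_atTop_nhds_zero.const_mul C
  refine squeeze_zero_norm' ?_ h1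
  filter_upwards [eventually_ge_atTop t1] with t ht
  rw [Real.norm_eq_abs]
  exact abs_mn_le_of_bound (hC t ht)

theorem bdd_Ef (hS : SphericalSpacetime W F r) (hT : TwoEndedSlice W F r U V) :
    ∃ C t1 : ℝ, ∀ t, t1 ≤ t → |Ef F r U V t| ≤ C := by
  obtain ⟨C, t1, hC⟩ := bound_of_O (D_O hS hT)
  refine ⟨C / 4, t1, fun t ht => ?_⟩
  have h1 := abs_mn_le_of_bound (hC t ht)
  unfold Ef
  rw [abs_mul, abs_of_pos (by positivity : 0 < Real.exp t * (1 / 4))]
  calc Real.exp t * (1 / 4) * |mn fun ω => Df F r U V (pt t ω)|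
      ≤ Real.exp t * (1 / 4) * (C * Real.exp (-t)) :=
        mul_le_mul_of_nonneg_left h1 (by positivity)
    _ = C / 4 := by
        rw [Real.exp_neg]
        have := (Real.exp_pos t).ne'
        field_simp

theorem mean_mass_le (hS : SphericalSpacetime W F r) (hT : TwoEndedSlice W F r U V) {m : ℝ}
    (hm : IsTotalMass (sliceMetric F r U V) m) {t1 : ℝ}
    (hmono : ∀ t, t1 ≤ t → ∀ ω, Mf F r U V (pt t1 ω) ≤ Mf F r U V (pt t ω)) :
    (mn fun ω => Mf F r U V (pt t1 ω)) ≤ m := by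
  by_contra hcon
  push Not at hcon
  set μ := mn fun ω => Mf F r U V (pt t1 ω) with hμ
  set ε := (μ - m) / 4 with hε
  have hε0 : 0 < ε := by rw [hε]; linarith
  have cM := fun t => integrable_sph (cont_comp_pt' (cont_M hS hT) t)
  obtain ⟨C, t2, hC⟩ := bdd_Ef hS hT
  have hm' : Tendsto (massIntegral (sliceMetric F r U V)) atTop (𝓝 m) := hm
  have hmt : Tendsto (fun t => massIntegral (sliceMetric F r U V) (Real.exp t)) atTop (𝓝 m) :=
    hm'.comp Real.tendsto_exp_atTop
  have h1 : ∀ᶠ t in atTop, massIntegral (sliceMetric F r U V) (Real.exp t) < m + ε :=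
    hmt.eventually_lt_const (by linarith)
  have h2 : ∀ᶠ t in atTop, Rf F r U V t < ε := (tendsto_Rf hS hT).eventually_lt_const hε0
  obtain ⟨t3, ht3⟩ := eventually_atTop.1 (h1.and h2)
  set T := max t1 (max t2 t3) with hTdef
  have hT1 : t1 ≤ T := le_max_left _ _
  have hT2 : t2 ≤ T := (le_max_left _ _).trans (le_max_right _ _)
  have hT3 : t3 ≤ T := (le_max_right _ _).trans (le_max_right _ _)
  have hder := fun t => (hder_E hS hT t)
  have hlow : ∀ t, T ≤ t → 2 * ε ≤ Real.exp t * (1 / 4) * (mn fun ω => Df F r U V (pt t ω))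
      + Real.exp t * (1 / 4) * mn fun ω => Real.exp t * rd (Df F r U V) (pt t ω) := by
    intro t ht
    have e1 := mean_eq hS hT t
    have e2 : μ ≤ mn fun ω => Mf F r U V (pt t ω) :=
      mn_mono (cM t1) (cM t) (hmono t (hT1.trans ht))
    have e3 := ht3 t (hT3.trans ht)
    have e4 : 4 * ε = μ - m := by rw [hε]; ring
    linarith [e3.1, e3.2]
  have hmonoE : MonotoneOn (fun t => Ef F r U V t - 2 * ε * t) (Ici T) := by
    refine monotoneOn_of_hasDerivWithinAt_nonneg (convex_Ici T)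
      (f' := fun t => (Real.exp t * (1 / 4) * (mn fun ω => Df F r U V (pt t ω))
      + Real.exp t * (1 / 4) * mn fun ω => Real.exp t * rd (Df F r U V) (pt t ω)) - 2 * ε * 1)
      ?_ ?_ ?_
    · exact fun t _ => ((hder t).sub ((hasDerivAt_id t).const_mul
        (2 * ε))).continuousAt.continuousWithinAt
    · exact fun t _ => ((hder t).sub ((hasDerivAt_id t).const_mul
        (2 * ε))).hasDerivWithinAt
    · intro t ht
      rw [interior_Ici] at ht
      have := hlow t (le_of_lt ht)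
      linarith
  set t4 := T + (2 * C + 1) / (2 * ε) with ht4
  have hC0 : 0 ≤ C := (abs_nonneg _).trans (hC T hT2)
  have hle : T ≤ t4 := by
    rw [ht4]
    have : 0 ≤ (2 * C + 1) / (2 * ε) := by positivity
    linarith
  have h5 := hmonoE self_mem_Ici (mem_Ici.2 hle) hle
  have h6 := abs_le.1 (hC T hT2)
  have h7 := abs_le.1 (hC t4 (hT2.trans hle))
  have h8 : 2 * ε * t4 = 2 * ε * T + (2 * C + 1) := by
    rw [ht4]
    field_simp
  simp only at h5
  linarith [h6.1, h6.2, h7.1, h7.2]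

/-- Far out all points are untrapped. -/
theorem exists_untrapped (hS : SphericalSpacetime W F r) (hT : TwoEndedSlice W F r U V) :
    ∃ t1 : ℝ, ∀ t, t1 ≤ t → ∀ ω : Sp, dU r (U (pt t ω)) (V (pt t ω)) < 0 ∧
      0 < dV r (U (pt t ω)) (V (pt t ω)) := by
  have h1 : Tendsto (fun p => b1 r U V p + b1d r U V p) li (𝓝 1) := by
    have := (tendsto_b1 hS hT).add ((b1d_O hS hT).trans_tendsto tendsto_ee)
    simpa using this
  have h2 : Tendsto (fun p => sr r U V p) li (𝓝 0) := (sr_O hT).trans_tendsto tendsto_ee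
  have h3 : ∀ᶠ p in li, (1 : ℝ) / 2 < b1 r U V p + b1d r U V p :=
    h1.eventually_const_lt (by norm_num)
  have h4 : ∀ᶠ p in li, sr r U V p < 1 / 2 := h2.eventually_lt_const (by norm_num)
  have h5 : ∀ᶠ p in li, -(1 / 2 : ℝ) < sr r U V p := h2.eventually_const_lt (by norm_num)
  obtain ⟨t1, ht1⟩ := exists_of_eventually_li (h3.and (h4.and h5))
  refine ⟨t1, fun t ht ω => ?_⟩
  obtain ⟨a1, a2, a3⟩ := ht1 t ht ω
  have ho := hT.outward _ (pt_ne_zero t ω)
  have ho1 : ru U (t, ω) < 0 := by rw [ru_eq]; exact ho.1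
  have ho2 : 0 < ru V (t, ω) := by rw [ru_eq]; exact ho.2
  unfold b1d at a1
  unfold sr at a2 a3
  simp only at a1 a2 a3
  have c1 : 0 < dU r (U (pt t ω)) (V (pt t ω)) * ru U (t, ω) := by linarith
  have c2 : 0 < dV r (U (pt t ω)) (V (pt t ω)) * ru V (t, ω) := by linarith
  constructor
  · by_contra hc
    push Not at hc
    exact absurd c1 (not_lt.2 (mul_nonpos_of_nonneg_of_nonpos hc ho1.le))
  · by_contra hc
    push Not at hc
    exact absurd c2 (not_lt.2 (mul_nonpos_of_nonpos_of_nonneg hc ho2.le))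

/-- Monotonicity of the mass along rays in the untrapped region. -/
theorem M_mono (hS : SphericalSpacetime W F r) (hT : TwoEndedSlice W F r U V) {a b : ℝ}
    (hab : a ≤ b) (ω : Sp) (h : ∀ t, a < t → t < b → dU r (U (pt t ω)) (V (pt t ω)) ≤ 0 ∧
      0 ≤ dV r (U (pt t ω)) (V (pt t ω))) : Mf F r U V (pt a ω) ≤ Mf F r U V (pt b ω) := by
  have hder : ∀ t, HasDerivAt (fun s => Mf F r U V (pt s ω))
      (dU (ms F r) (U (pt t ω)) (V (pt t ω)) * (Real.exp t * ru U (t, ω))
        + dV (ms F r) (U (pt t ω)) (V (pt t ω)) * (Real.exp t * ru V (t, ω))) t := fun t =>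
    hasDerivAt_comp_curve (f := ms F r) (diff_ms hS (memW hT (pt_mem t ω))) (hderU hT t ω)
      (hderV hT t ω)
  have hmono : MonotoneOn (fun s => Mf F r U V (pt s ω)) (Icc a b) := by
    refine monotoneOn_of_hasDerivWithinAt_nonneg (convex_Icc a b)
      (fun t _ => (hder t).continuousAt.continuousWithinAt)
      (fun t _ => (hder t).hasDerivWithinAt) ?_
    intro t ht
    rw [interior_Icc] at ht
    have ho := hT.outward _ (pt_ne_zero t ω)
    have ho1 : ru U (t, ω) < 0 := by rw [ru_eq]; exact ho.1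
    have ho2 : 0 < ru V (t, ω) := by rw [ru_eq]; exact ho.2
    have hE := Real.exp_pos t
    exact ms_deriv_nonneg hS (memW hT (pt_mem t ω)) (h t ht.1 ht.2).1 (h t ht.1 ht.2).2
      (mul_nonpos_of_nonneg_of_nonpos hE.le ho1.le) (mul_nonneg hE.le ho2.le)
  exact hmono (left_mem_Icc.2 hab) (right_mem_Icc.2 hab) hab

theorem cont_dU (hS : SphericalSpacetime W F r) (hT : TwoEndedSlice W F r U V) :
    ContinuousOn (fun x => dU r (U x) (V x)) reg :=
  (cd_rU hS).continuousOn.comp ((cdU hT).continuousOn.prodMk (cdV hT).continuousOn)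
    fun x hx => memW hT hx

theorem cont_dV (hS : SphericalSpacetime W F r) (hT : TwoEndedSlice W F r U V) :
    ContinuousOn (fun x => dV r (U x) (V x)) reg :=
  (cd_rV hS).continuousOn.comp ((cdU hT).continuousOn.prodMk (cdV hT).continuousOn)
    fun x hx => memW hT hx

theorem pt_eq_smul (t : ℝ) (ω : Sp) : pt t ω = Real.exp t • (ω : E3) := rfl

/-- There is a marginal point whose area radius is at most twice the total mass. -/
theorem exists_marginal (hS : SphericalSpacetime W F r) (hT : TwoEndedSlice W F r U V) {m : ℝ}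
    (hm : IsTotalMass (sliceMetric F r U V) m) :
    ∃ x0 : E3, x0 ∈ reg ∧ (dU r (U x0) (V x0) = 0 ∨ dV r (U x0) (V x0) = 0) ∧
      r (U x0) (V x0) ≤ 2 * m := by
  obtain ⟨t1, ht1⟩ := exists_untrapped hS hT
  have hmean : (mn fun ω => Mf F r U V (pt t1 ω)) ≤ m := by
    refine mean_mass_le hS hT hm fun t ht ω => M_mono hS hT ht ω fun s hs _ => ?_
    have := ht1 s hs.le ω
    exact ⟨this.1.le, this.2.le⟩
  have cM := cont_comp_pt' (cont_M hS hT) t1
  have : Nonempty Sp := (NormedSpace.sphere_nonempty.2 zero_le_one).to_subtype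
  obtain ⟨ω, -, hω⟩ := (isCompact_univ (X := Sp)).exists_isMinOn univ_nonempty cM.continuousOn
  have hωle : Mf F r U V (pt t1 ω) ≤ m := by
    refine le_trans ?_ hmean
    rw [← mn_const (Mf F r U V (pt t1 ω))]
    exact mn_mono (integrable_const _) (integrable_sph cM) fun ω' => hω (mem_univ ω')
  -- the function detecting untrapped points
  set φ : ℝ → ℝ := fun t => min (-dU r (U (pt t ω)) (V (pt t ω)))
    (dV r (U (pt t ω)) (V (pt t ω))) with hφ
  have hinj : Continuous fun t : ℝ => ((t, ω) : ℝ × Sp) := by fun_prop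
  have hcφ : Continuous φ :=
    ((cont_comp_pt (cont_dU hS hT)).comp hinj).neg.min ((cont_comp_pt (cont_dV hS hT)).comp hinj)
  have hpos : ∀ t, t1 ≤ t → 0 < φ t := fun t ht => by
    have := ht1 t ht ω
    exact lt_min (by linarith [this.1]) this.2
  have hex : ∃ T0 < t1, φ T0 ≤ 0 := by
    by_contra hcon
    push Not at hcon
    -- the area radius increases along the whole ray
    have hanti : ∀ t, t < t1 → r (U (pt t ω)) (V (pt t ω)) ≤ r (U (pt t1 ω)) (V (pt t1 ω)) := by
      intro t ht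
      have hmono : MonotoneOn (fun s => r (U (pt s ω)) (V (pt s ω))) (Icc t t1) := by
        refine monotoneOn_of_hasDerivWithinAt_nonneg (convex_Icc t t1)
          (fun s _ => (hder_r hS hT s ω).continuousAt.continuousWithinAt)
          (fun s _ => (hder_r hS hT s ω).hasDerivWithinAt) ?_
        intro s hs
        rw [interior_Icc] at hs
        have h1 := hcon s hs.2
        have h2 : 0 < -dU r (U (pt s ω)) (V (pt s ω)) := lt_of_lt_of_le h1 (min_le_left _ _)
        have h3 : 0 < dV r (U (pt s ω)) (V (pt s ω)) := lt_of_lt_of_le h1 (min_le_right _ _)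
        have ho := hT.outward _ (pt_ne_zero s ω)
        have ho1 : ru U (s, ω) < 0 := by rw [ru_eq]; exact ho.1
        have ho2 : 0 < ru V (s, ω) := by rw [ru_eq]; exact ho.2
        have hE := Real.exp_pos s
        have e1 : 0 ≤ dU r (U (pt s ω)) (V (pt s ω)) * (Real.exp s * ru U (s, ω)) :=
          mul_nonneg_of_nonpos_of_nonpos (by linarith)
            (mul_nonpos_of_nonneg_of_nonpos hE.le ho1.le)
        have e2 : 0 ≤ dV r (U (pt s ω)) (V (pt s ω)) * (Real.exp s * ru V (s, ω)) :=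
          mul_nonneg h3.le (mul_nonneg hE.le ho2.le)
        exact add_nonneg e1 e2
      exact hmono (left_mem_Icc.2 ht.le) (right_mem_Icc.2 ht.le) ht.le
    have hlim := hT.r_inner ω
    have h4 : ∀ᶠ ρ : ℝ in 𝓝[>] 0, r (U (pt t1 ω)) (V (pt t1 ω)) + 1
        ≤ r (U (ρ • (ω : E3))) (V (ρ • (ω : E3))) := hlim.eventually_ge_atTop _
    have h5 : ∀ᶠ ρ : ℝ in 𝓝[>] 0, ρ < Real.exp t1 :=
      (eventually_lt_nhds (Real.exp_pos t1)).filter_mono nhdsWithin_le_nhds
    obtain ⟨ρ, h6, h7, h8⟩ := (h4.and (h5.and self_mem_nhdsWithin)).exists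
    have h8' : (0 : ℝ) < ρ := h8
    have h9 := hanti (Real.log ρ) ((Real.log_lt_iff_lt_exp h8').2 h7)
    rw [pt_eq_smul (Real.log ρ), Real.exp_log h8'] at h9
    linarith
  obtain ⟨T0, hT0, hφT0⟩ := hex
  obtain ⟨t0, ht0, hz, hgt⟩ := exists_last_zero hcφ.continuousOn hφT0
    (eventually_atTop.2 ⟨t1, hpos⟩)
  have ht01 : t0 ≤ t1 := by
    by_contra hcon
    push Not at hcon
    exact absurd hz (hpos t0 hcon.le).ne'
  have hmass : Mf F r U V (pt t0 ω) ≤ Mf F r U V (pt t1 ω) := by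
    refine M_mono hS hT ht01 ω fun s hs _ => ?_
    have h1 := hgt s hs
    have h2 : 0 < -dU r (U (pt s ω)) (V (pt s ω)) := lt_of_lt_of_le h1 (min_le_left _ _)
    have h3 : 0 < dV r (U (pt s ω)) (V (pt s ω)) := lt_of_lt_of_le h1 (min_le_right _ _)
    exact ⟨by linarith, h3.le⟩
  have hor : dU r (U (pt t0 ω)) (V (pt t0 ω)) = 0 ∨ dV r (U (pt t0 ω)) (V (pt t0 ω)) = 0 := by
    rcases min_choice (-dU r (U (pt t0 ω)) (V (pt t0 ω))) (dV r (U (pt t0 ω)) (V (pt t0 ω)))
      with h | h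
    · left
      have : φ t0 = -dU r (U (pt t0 ω)) (V (pt t0 ω)) := h
      linarith
    · right
      have : φ t0 = dV r (U (pt t0 ω)) (V (pt t0 ω)) := h
      linarith
  refine ⟨pt t0 ω, pt_mem t0 ω, hor, ?_⟩
  have hM0 : Mf F r U V (pt t0 ω) = r (U (pt t0 ω)) (V (pt t0 ω)) / 2 := by
    unfold Mf ms
    rcases hor with h | h <;> rw [h] <;> ring
  linarith

end

end Pool.Agent.PenroseSlice
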