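import Pool.Agent.PenroseSph.Average

/-! The mass integral of a general asymptotically flat metric in terms of spherical means. -/

open MeasureTheory Filter Topology Set

namespace Pool.Agent.PenroseSlice

open Pool.Agent.PenroseSph

/-- The punctured space. -/
abbrev reg : Set E3 := {x : E3 | (0 : ℝ) < ‖x‖}

theorem pt_mem (t : ℝ) (ω : Metric.sphere (0 : E3) 1) : pt t ω ∈ reg := by
  simp only [mem_setOf_eq, norm_pt]
  exact Real.exp_pos t

theorem cont_comp_pt {f : E3 → ℝ} (hf : ContinuousOn f reg) :
    Continuous fun p : ℝ × Metric.sphere (0 : E3) 1 => f (pt p.1 p.2) :=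
  hf.comp_continuous continuous_pt fun p => pt_mem p.1 p.2

theorem cont_comp_pt' {f : E3 → ℝ} (hf : ContinuousOn f reg) (t : ℝ) :
    Continuous fun ω : Metric.sphere (0 : E3) 1 => f (pt t ω) :=
  (cont_comp_pt hf).comp (by fun_prop : Continuous fun ω : Metric.sphere (0 : E3) 1 => (t, ω))

theorem cont_rd {f : E3 → ℝ} (hf : ContDiffOn ℝ 1 f reg) : ContinuousOn (rd f) reg :=
  continuousOn_finsetSum _ fun i _ => (contDiffOn_nu le_rfl i).continuousOn.mul
    (continuousOn_pd hf i)

theorem diff_of_cd {f : E3 → ℝ} (hf : ContDiffOn ℝ 1 f reg) {x : E3} (hx : x ∈ reg) :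
    DifferentiableAt ℝ f x :=
  (hf.differentiableOn (by norm_num)).differentiableAt (isOpen_region.mem_nhds hx)

theorem hasDerivAt_mn {K : E3 → ℝ} (hK : ContDiffOn ℝ 1 K reg) (t : ℝ) :
    HasDerivAt (fun s => mn fun ω => K (pt s ω)) (mn fun ω => Real.exp t * rd K (pt t ω)) t := by
  have hcK : Continuous fun p : ℝ × Metric.sphere (0 : E3) 1 => K (pt p.1 p.2) :=
    cont_comp_pt hK.continuousOn
  have hcd : Continuous fun p : ℝ × Metric.sphere (0 : E3) 1 =>
      Real.exp p.1 * rd K (pt p.1 p.2) :=
    (by fun_prop : Continuous fun p : ℝ × Metric.sphere (0 : E3) 1 => Real.exp p.1).mul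
      (cont_comp_pt (cont_rd hK))
  have hK' : IsCompact (Icc (t - 1) (t + 1) ×ˢ (univ : Set (Metric.sphere (0 : E3) 1))) :=
    isCompact_Icc.prod isCompact_univ
  obtain ⟨C, hC⟩ := hK'.exists_bound_of_continuousOn hcd.continuousOn
  have key := hasDerivAt_integral_of_dominated_loc_of_deriv_le (μ := sph)
    (F := fun s ω => K (pt s ω)) (F' := fun s ω => Real.exp s * rd K (pt s ω)) (x₀ := t)
    (s := Ioo (t - 1) (t + 1))
    (bound := fun _ => C) (Ioo_mem_nhds (by linarith) (by linarith)) ?_ ?_ ?_ ?_ ?_ ?_
  · exact key.2.const_mul _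
  · exact Eventually.of_forall fun s => (cont_comp_pt' hK.continuousOn s).aestronglyMeasurable
  · exact integrable_sph (cont_comp_pt' hK.continuousOn t)
  · exact (continuous_const.mul (cont_comp_pt' (cont_rd hK) t)).aestronglyMeasurable
  · exact Eventually.of_forall fun ω s hs => hC (s, ω) ⟨⟨hs.1.le, hs.2.le⟩, mem_univ _⟩
  · exact integrable_const _
  · exact Eventually.of_forall fun ω s _ => hasDerivAt_comp_pt (diff_of_cd hK (pt_mem s ω))

section

variable {g : TensorField} (hg : ∀ i j, ContDiffOn ℝ 1 (fun x => g x i j) reg)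

include hg in
theorem cd_radialPart : ContDiffOn ℝ 1 (radialPart g) reg := by
  have : radialPart g = fun y => ∑ i, ∑ j, g y i j * (y i / ‖y‖) * (y j / ‖y‖) := rfl
  rw [this]
  exact ContDiffOn.sum fun i _ => ContDiffOn.sum fun j _ =>
    ((hg i j).mul (contDiffOn_nu le_rfl i)).mul (contDiffOn_nu le_rfl j)

include hg in
theorem cd_tangentialTrace : ContDiffOn ℝ 1 (tangentialTrace g) reg := by
  have : tangentialTrace g = fun y => (∑ i, g y i i) - radialPart g y := rfl
  rw [this]
  exact (ContDiffOn.sum fun i _ => hg i i).sub (cd_radialPart hg)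

include hg in
theorem cd_tangentialFlux (i : Fin 3) : ContDiffOn ℝ 1 (tangentialFlux g i) reg := by
  have : tangentialFlux g i =
    fun y => (∑ j, g y i j * (y j / ‖y‖)) - radialPart g y * (y i / ‖y‖) := rfl
  rw [this]
  exact (ContDiffOn.sum fun j _ => (hg i j).mul (contDiffOn_nu le_rfl j)).sub
    ((cd_radialPart hg).mul (contDiffOn_nu le_rfl i))

include hg in
theorem integral_fluxDivergence (t : ℝ) : ∫ ω, fluxDivergence g (pt t ω) ∂sph = 0 :=
  integral_sphere_div_eq_zero le_rfl (cd_tangentialFlux hg)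
    (fun _ hx => sum_nu_tangentialFlux (ne_zero_of_lt le_rfl hx)) (Real.exp_pos t)

include hg in
theorem massIntegral_eq_mn (t : ℝ) : massIntegral g (Real.exp t) =
    (1 / 4) * mn fun ω => Real.exp t * (2 * radialPart g (pt t ω) - tangentialTrace g (pt t ω)
      - Real.exp t * rd (tangentialTrace g) (pt t ω)) := by
  have h1 : ∀ ω : Metric.sphere (0 : E3) 1,
      (∑ i, ∑ j, (pd i (fun y => g y i j) (Real.exp t • (ω : E3))
        - pd j (fun y => g y i i) (Real.exp t • (ω : E3))) * (ω : E3) j) * Real.exp t ^ 2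
      = Real.exp t ^ 2 * fluxDivergence g (pt t ω)
        + Real.exp t * (2 * radialPart g (pt t ω) - tangentialTrace g (pt t ω)
          - Real.exp t * rd (tangentialTrace g) (pt t ω)) := by
    intro ω
    have hx := pt_mem t ω
    have hh : ∀ i j, DifferentiableAt ℝ (fun y => g y i j) (pt t ω) := fun i j =>
      diff_of_cd (hg i j) hx
    have e1 := fluxDivergence_eq le_rfl hx hh
    have e2 := fun k => pd_tangentialTrace le_rfl hx hh k
    have e3 : rd (tangentialTrace g) (pt t ω) = ∑ k, (pt t ω k / ‖pt t ω‖) *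
        ((∑ l, pd k (fun y => g y l l) (pt t ω)) - pd k (radialPart g) (pt t ω)) := by
      unfold rd
      simp only [e2]
    rw [e3, e1]
    simp only [pt_div_norm]
    simp only [norm_pt]
    have e4 : (Real.exp t • (ω : E3)) = pt t ω := rfl
    rw [e4]
    have hne := (Real.exp_pos t).ne'
    simp only [Fin.sum_univ_three]
    field_simp
    ring
  unfold massIntegral
  simp only [h1]
  have hT := cd_tangentialTrace hg
  have hA := cd_radialPart hg
  have hfd : ContinuousOn (fluxDivergence g) reg :=
    continuousOn_finsetSum _ fun i _ => continuousOn_pd (cd_tangentialFlux hg i) i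
  have hint1 : Integrable (fun ω => Real.exp t ^ 2 * fluxDivergence g (pt t ω)) sph :=
    integrable_sph (continuous_const.mul (cont_comp_pt' hfd t))
  have hint2 : Integrable (fun ω => Real.exp t * (2 * radialPart g (pt t ω)
      - tangentialTrace g (pt t ω) - Real.exp t * rd (tangentialTrace g) (pt t ω))) sph :=
    integrable_sph (continuous_const.mul (((continuous_const.mul
      (cont_comp_pt' hA.continuousOn t)).sub (cont_comp_pt' hT.continuousOn t)).sub
      (continuous_const.mul (cont_comp_pt' (cont_rd hT) t))))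
  rw [integral_add hint1 hint2, integral_const_mul, integral_fluxDivergence hg]
  unfold mn
  have := Real.pi_ne_zero
  field_simp
  ring

end

end Pool.Agent.PenroseSlice
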