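import Pool.Agent.PenroseSlice.Defs

/-! Calculus in the quotient plane. -/

open Filter Topology Set

namespace Pool.Agent.PenroseSlice

open Pool.Agent.PenroseSph

section

variable {W : Set (ℝ × ℝ)} {F r : ℝ → ℝ → ℝ} {f : ℝ → ℝ → ℝ} {u v : ℝ}

theorem dU_eq (hf : DifferentiableAt ℝ (fun p : ℝ × ℝ => f p.1 p.2) (u, v)) :
    HasDerivAt (fun s => f s v) (fderiv ℝ (fun p : ℝ × ℝ => f p.1 p.2) (u, v) (1, 0)) u := by
  have h1 : HasDerivAt (fun s : ℝ => (s, v)) ((1 : ℝ), (0 : ℝ)) u :=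
    (hasDerivAt_id u).prodMk (hasDerivAt_const u v)
  exact hf.hasFDerivAt.comp_hasDerivAt u h1

theorem dV_eq (hf : DifferentiableAt ℝ (fun p : ℝ × ℝ => f p.1 p.2) (u, v)) :
    HasDerivAt (fun s => f u s) (fderiv ℝ (fun p : ℝ × ℝ => f p.1 p.2) (u, v) (0, 1)) v := by
  have h1 : HasDerivAt (fun s : ℝ => (u, s)) ((0 : ℝ), (1 : ℝ)) v :=
    (hasDerivAt_const v u).prodMk (hasDerivAt_id v)
  exact hf.hasFDerivAt.comp_hasDerivAt v h1

theorem hasDerivAt_dU (hf : DifferentiableAt ℝ (fun p : ℝ × ℝ => f p.1 p.2) (u, v)) :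
    HasDerivAt (fun s => f s v) (dU f u v) u := (dU_eq hf).differentiableAt.hasDerivAt

theorem hasDerivAt_dV (hf : DifferentiableAt ℝ (fun p : ℝ × ℝ => f p.1 p.2) (u, v)) :
    HasDerivAt (fun s => f u s) (dV f u v) v := (dV_eq hf).differentiableAt.hasDerivAt

/-- The chain rule along a curve in the plane. -/
theorem hasDerivAt_comp_curve {α β : ℝ → ℝ} {a b t : ℝ}
    (hf : DifferentiableAt ℝ (fun p : ℝ × ℝ => f p.1 p.2) (α t, β t))
    (hα : HasDerivAt α a t) (hβ : HasDerivAt β b t) :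
    HasDerivAt (fun s => f (α s) (β s)) (dU f (α t) (β t) * a + dV f (α t) (β t) * b) t := by
  have h1 : HasDerivAt (fun s : ℝ => (α s, β s)) (a, b) t := hα.prodMk hβ
  have h2 := hf.hasFDerivAt.comp_hasDerivAt t h1
  refine h2.congr_deriv ?_
  rw [show dU f (α t) (β t) = _ from (dU_eq hf).deriv, show dV f (α t) (β t) = _ from
    (dV_eq hf).deriv]
  have h3 : ((a, b) : ℝ × ℝ) = a • ((1 : ℝ), (0 : ℝ)) + b • ((0 : ℝ), (1 : ℝ)) := by simp
  rw [h3, map_add, map_smul, map_smul, smul_eq_mul, smul_eq_mul]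
  ring

theorem contDiffOn_dU (hW : IsOpen W) {n : ℕ}
    (hf : ContDiffOn ℝ (n + 1) (fun p : ℝ × ℝ => f p.1 p.2) W) :
    ContDiffOn ℝ n (fun p : ℝ × ℝ => dU f p.1 p.2) W := by
  have h1 : ContDiffOn ℝ n (fun p => fderiv ℝ (fun p : ℝ × ℝ => f p.1 p.2) p (1, 0)) W :=
    (hf.fderiv_of_isOpen hW le_rfl).clm_apply contDiffOn_const
  refine h1.congr fun p hp => ?_
  have h2 : DifferentiableAt ℝ (fun p : ℝ × ℝ => f p.1 p.2) (p.1, p.2) :=
    (hf.differentiableOn (by simp)).differentiableAt (hW.mem_nhds hp)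
  exact (dU_eq h2).deriv

theorem contDiffOn_dV (hW : IsOpen W) {n : ℕ}
    (hf : ContDiffOn ℝ (n + 1) (fun p : ℝ × ℝ => f p.1 p.2) W) :
    ContDiffOn ℝ n (fun p : ℝ × ℝ => dV f p.1 p.2) W := by
  have h1 : ContDiffOn ℝ n (fun p => fderiv ℝ (fun p : ℝ × ℝ => f p.1 p.2) p (0, 1)) W :=
    (hf.fderiv_of_isOpen hW le_rfl).clm_apply contDiffOn_const
  refine h1.congr fun p hp => ?_
  have h2 : DifferentiableAt ℝ (fun p : ℝ × ℝ => f p.1 p.2) (p.1, p.2) :=
    (hf.differentiableOn (by simp)).differentiableAt (hW.mem_nhds hp)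
  exact (dV_eq h2).deriv

/-- Mixed partial derivatives commute. -/
theorem dU_dV_comm (hW : IsOpen W) (hf : ContDiffOn ℝ 2 (fun p : ℝ × ℝ => f p.1 p.2) W)
    (hp : (u, v) ∈ W) : dU (dV f) u v = dV (dU f) u v := by
  set G := fun p : ℝ × ℝ => f p.1 p.2 with hG
  have hd : ∀ p ∈ W, DifferentiableAt ℝ G p := fun p hp =>
    (hf.differentiableOn (by norm_num)).differentiableAt (hW.mem_nhds hp)
  have hG2 : ContDiffAt ℝ 2 G (u, v) := hf.contDiffAt (hW.mem_nhds hp)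
  have hdd : DifferentiableAt ℝ (fderiv ℝ G) (u, v) :=
    (hG2.fderiv_right (m := 1) (by norm_num)).differentiableAt (by norm_num)
  have hsymm : IsSymmSndFDerivAt ℝ G (u, v) := hG2.isSymmSndFDerivAt (by simp)
  have e1 : dU (dV f) u v = fderiv ℝ (fderiv ℝ G) (u, v) (1, 0) (0, 1) := by
    have h1 : (fun s => dV f s v) =ᶠ[𝓝 u] fun s => fderiv ℝ G (s, v) (0, 1) := by
      have : ∀ᶠ s in 𝓝 u, (s, v) ∈ W :=
        (by fun_prop : Continuous fun s : ℝ => (s, v)).continuousAt.eventually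
          (hW.mem_nhds hp)
      filter_upwards [this] with s hs
      exact (dV_eq (hd _ hs)).deriv
    have h2 : HasDerivAt (fun s : ℝ => fderiv ℝ G (s, v) (0, 1))
        (fderiv ℝ (fderiv ℝ G) (u, v) (1, 0) (0, 1)) u := by
      have h3 : HasDerivAt (fun s : ℝ => (s, v)) ((1 : ℝ), (0 : ℝ)) u :=
        (hasDerivAt_id u).prodMk (hasDerivAt_const u v)
      have h4 := hdd.hasFDerivAt.comp_hasDerivAt u h3
      have h5 := h4.clm_apply (hasDerivAt_const u ((0 : ℝ), (1 : ℝ)))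
      simpa using h5
    unfold dU
    rw [h1.deriv_eq]
    exact h2.deriv
  have e2 : dV (dU f) u v = fderiv ℝ (fderiv ℝ G) (u, v) (0, 1) (1, 0) := by
    have h1 : (fun s => dU f u s) =ᶠ[𝓝 v] fun s => fderiv ℝ G (u, s) (1, 0) := by
      have : ∀ᶠ s in 𝓝 v, (u, s) ∈ W :=
        (by fun_prop : Continuous fun s : ℝ => (u, s)).continuousAt.eventually
          (hW.mem_nhds hp)
      filter_upwards [this] with s hs
      exact (dU_eq (hd _ hs)).deriv
    have h2 : HasDerivAt (fun s : ℝ => fderiv ℝ G (u, s) (1, 0))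
        (fderiv ℝ (fderiv ℝ G) (u, v) (0, 1) (1, 0)) v := by
      have h3 : HasDerivAt (fun s : ℝ => (u, s)) ((0 : ℝ), (1 : ℝ)) v :=
        (hasDerivAt_const v u).prodMk (hasDerivAt_id v)
      have h4 := hdd.hasFDerivAt.comp_hasDerivAt v h3
      have h5 := h4.clm_apply (hasDerivAt_const v ((1 : ℝ), (0 : ℝ)))
      simpa using h5
    unfold dV
    rw [h1.deriv_eq]
    exact h2.deriv
  rw [e1, e2]
  exact hsymm _ _

end

end Pool.Agent.PenroseSlice
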