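import Pool.Agent.PenroseSlice.Asym2
import Pool.Agent.PenroseSlice.Mass

/-! The metric of a slice along rays. -/

open MeasureTheory Filter Topology Set Asymptotics

namespace Pool.Agent.PenroseSlice

open Pool.Agent.PenroseSph

section

variable {W : Set (ℝ × ℝ)} {F r : ℝ → ℝ → ℝ} {U V : E3 → ℝ}

theorem ne_of_reg {x : E3} (hx : x ∈ reg) : x ≠ 0 := norm_pos_iff.1 hx

theorem reg_eq : ({0}ᶜ : Set E3) = reg := by
  ext x
  simp [norm_pos_iff]

theorem cdU (hT : TwoEndedSlice W F r U V) : ContDiffOn ℝ 2 U reg := reg_eq ▸ hT.contDiff_U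

theorem cdV (hT : TwoEndedSlice W F r U V) : ContDiffOn ℝ 2 V reg := reg_eq ▸ hT.contDiff_V

theorem memW (hT : TwoEndedSlice W F r U V) {x : E3} (hx : x ∈ reg) : (U x, V x) ∈ W :=
  hT.mem x (ne_of_reg hx)

theorem cd_pd {f : E3 → ℝ} (hf : ContDiffOn ℝ 2 f reg) (i : Fin 3) :
    ContDiffOn ℝ 1 (fun x => pd i f x) reg := by
  have h1 : ContDiffOn ℝ 1 (fun x => fderiv ℝ f x (EuclideanSpace.single i 1)) reg :=
    (hf.fderiv_of_isOpen isOpen_region (m := 1) (by norm_num)).clm_apply contDiffOn_const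
  exact h1

theorem cd_comp {f : ℝ → ℝ → ℝ} {n : ℕ} (hn : n ≤ 2)
    (hf : ContDiffOn ℝ n (fun p : ℝ × ℝ => f p.1 p.2) W)
    (hT : TwoEndedSlice W F r U V) : ContDiffOn ℝ n (fun x => f (U x) (V x)) reg := by
  have h1 : ContDiffOn ℝ n (fun x => (U x, V x)) reg :=
    (((cdU hT).prodMk (cdV hT))).of_le (by exact_mod_cast hn)
  exact hf.comp h1 fun x hx => memW hT hx

theorem cd_norm : ContDiffOn ℝ 1 (fun x : E3 => ‖x‖) reg := fun x hx =>
  (contDiffAt_norm ℝ (ne_of_reg hx)).contDiffWithinAt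

/-- square of the normalized area radius -/
noncomputable def Bf (r : ℝ → ℝ → ℝ) (U V : E3 → ℝ) (x : E3) : ℝ := (r (U x) (V x) / ‖x‖) ^ 2

theorem cd_B (hS : SphericalSpacetime W F r) (hT : TwoEndedSlice W F r U V) :
    ContDiffOn ℝ 1 (Bf r U V) reg := by
  have h1 : ContDiffOn ℝ (2 : ℕ) (fun x => r (U x) (V x)) reg :=
    cd_comp le_rfl (by exact_mod_cast hS.contDiff_r) hT
  have h2 : ContDiffOn ℝ 1 (fun x => r (U x) (V x)) reg := h1.of_le (by norm_num)
  exact (h2.div cd_norm fun _ hx => ne_of_gt hx).pow 2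

theorem cd_metric (hS : SphericalSpacetime W F r) (hT : TwoEndedSlice W F r U V) (i j : Fin 3) :
    ContDiffOn ℝ 1 (fun x => sliceMetric F r U V x i j) reg := by
  have hF : ContDiffOn ℝ 1 (fun x => F (U x) (V x)) reg :=
    (cd_comp le_rfl (n := 2) (by exact_mod_cast hS.contDiff_F) hT).of_le (by norm_num)
  have hB := cd_B hS hT
  have hU := fun i => cd_pd (cdU hT) i
  have hV := fun i => cd_pd (cdV hT) i
  have hn := fun i => contDiffOn_nu (ρ₁ := 0) le_rfl i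
  have h1 : ContDiffOn ℝ 1 (fun x => -(F (U x) (V x) * (pd i U x * pd j V x + pd i V x * pd j U x)))
      reg := (hF.mul (((hU i).mul (hV j)).add ((hV i).mul (hU j)))).neg
  have h2 : ContDiffOn ℝ 1 (fun x => Bf r U V x * ((if i = j then (1 : ℝ) else 0)
      - (x i / ‖x‖) * (x j / ‖x‖))) reg :=
    hB.mul (contDiffOn_const.sub ((hn i).mul (hn j)))
  exact (h1.div_const 2).add h2

/-- components of the metric along rays -/
noncomputable def Gc (F r : ℝ → ℝ → ℝ) (U V : E3 → ℝ) (i j : Fin 3) (p : ℝ × Sp) : ℝ :=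
  sliceMetric F r U V (pt p.1 p.2) i j

/-- their derivatives -/
noncomputable def Gcd (F r : ℝ → ℝ → ℝ) (U V : E3 → ℝ) (i j : Fin 3) (p : ℝ × Sp) : ℝ :=
  Real.exp p.1 * rd (fun y => sliceMetric F r U V y i j) (pt p.1 p.2)

theorem hder_G (hS : SphericalSpacetime W F r) (hT : TwoEndedSlice W F r U V) (i j : Fin 3)
    (t : ℝ) (ω : Sp) : HasDerivAt (fun s => Gc F r U V i j (s, ω)) (Gcd F r U V i j (t, ω)) t :=
  hasDerivAt_comp_pt (diff_of_cd (cd_metric hS hT i j) (pt_mem t ω))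

theorem eventually_large (R : ℝ) : ∀ᶠ p : ℝ × Sp in li, R ≤ ‖pt p.1 p.2‖ := by
  have h1 : ∀ᶠ t : ℝ in atTop, R ≤ Real.exp t :=
    Real.tendsto_exp_atTop.eventually_ge_atTop R
  filter_upwards [tendsto_fst.eventually h1] with p hp
  rwa [norm_pt]

theorem hG_O (hT : TwoEndedSlice W F r U V) (i j : Fin 3) :
    (fun p => Gc F r U V i j p - dd i j p) =O[li] ee := by
  obtain ⟨C, R, hC⟩ := hT.decay
  refine IsBigO.of_bound C ?_
  filter_upwards [eventually_large R] with p hp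
  have h1 := ((hC _ hp).2 i j).1
  rw [norm_pt] at h1
  unfold Gc dd dl ee
  rw [Real.norm_eq_abs, Real.norm_eq_abs, Real.abs_exp, Real.exp_neg, ← div_eq_mul_inv]
  rw [Matrix.one_apply] at h1
  exact h1

theorem abs_nu_le_one (i : Fin 3) (p : ℝ × Sp) : |nu i p| ≤ 1 := by
  have h := nu_sq p
  rw [abs_le_one_iff_mul_self_le_one]
  fin_cases i <;> simp only [Fin.zero_eta, Fin.mk_one, Fin.reduceFinMk] <;>
    nlinarith [sq_nonneg (nu 0 p), sq_nonneg (nu 1 p), sq_nonneg (nu 2 p)]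

theorem hGd_O (hT : TwoEndedSlice W F r U V) (i j : Fin 3) :
    (fun p => Gcd F r U V i j p) =O[li] ee := by
  obtain ⟨C, R, hC⟩ := hT.decay
  refine IsBigO.of_bound (3 * C) ?_
  filter_upwards [eventually_large R] with p hp
  have h1 := ((hC _ hp).2 i j).2
  simp only [norm_pt] at h1
  have hE := Real.exp_pos p.1
  unfold Gcd ee
  rw [Real.norm_eq_abs, Real.norm_eq_abs, Real.abs_exp, Real.exp_neg, abs_mul, Real.abs_exp]
  have h2 : |rd (fun y => sliceMetric F r U V y i j) (pt p.1 p.2)|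
      ≤ 3 * (C / Real.exp p.1 ^ 2) := by
    unfold rd
    refine (Finset.abs_sum_le_sum_abs _ _).trans ?_
    have h3 : ∀ k : Fin 3, |(pt p.1 p.2 k / ‖pt p.1 p.2‖) *
        pd k (fun y => sliceMetric F r U V y i j) (pt p.1 p.2)| ≤ C / Real.exp p.1 ^ 2 := by
      intro k
      rw [abs_mul, pt_div_norm]
      have h4 := abs_nu_le_one k p
      have h5 := h1 k
      calc |(p.2 : E3) k| * |pd k (fun y => sliceMetric F r U V y i j) (pt p.1 p.2)|
          ≤ 1 * |pd k (fun y => sliceMetric F r U V y i j) (pt p.1 p.2)| :=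
            mul_le_mul_of_nonneg_right h4 (abs_nonneg _)
        _ ≤ C / Real.exp p.1 ^ 2 := by rw [one_mul]; exact h5
    rw [Fin.sum_univ_three]
    linarith [h3 0, h3 1, h3 2]
  calc Real.exp p.1 * |rd (fun y => sliceMetric F r U V y i j) (pt p.1 p.2)|
      ≤ Real.exp p.1 * (3 * (C / Real.exp p.1 ^ 2)) := mul_le_mul_of_nonneg_left h2 hE.le
    _ = 3 * C * (Real.exp p.1)⁻¹ := by field_simp

/-- The algebra of the induced metric. -/
theorem algebra_metric {a b n : Fin 3 → ℝ} {φ B : ℝ} (hn : n 0 ^ 2 + n 1 ^ 2 + n 2 ^ 2 = 1)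
    {M : Fin 3 → Fin 3 → ℝ}
    (hM : ∀ i j, M i j = -(φ * (a i * b j + b i * a j)) / 2 + B * (dl i j - n i * n j)) :
    (∑ i, ∑ j, M i j * n i * n j = -(φ * (∑ i, n i * a i) * (∑ i, n i * b i))) ∧
    ∀ k, (∑ j, M k j * n j) = -(φ / 2 * (a k * (∑ i, n i * b i) + b k * ∑ i, n i * a i)) := by
  constructor
  · simp only [hM, Fin.sum_univ_three, dl, Fin.isValue, ↓reduceIte, Fin.reduceEq, zero_ne_one,
      one_ne_zero]
    linear_combination (-B * (n 0 ^ 2 + n 1 ^ 2 + n 2 ^ 2)) * hn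
  · intro k
    simp only [hM, Fin.sum_univ_three, dl]
    fin_cases k <;> simp only [Fin.zero_eta, Fin.mk_one, Fin.reduceFinMk, Fin.isValue,
      ↓reduceIte, Fin.reduceEq, zero_ne_one, one_ne_zero]
    · linear_combination (-B * n 0) * hn
    · linear_combination (-B * n 1) * hn
    · linear_combination (-B * n 2) * hn

/-- radial derivatives along rays -/
noncomputable def ru (U : E3 → ℝ) (p : ℝ × Sp) : ℝ := ∑ i, nu i p * pd i U (pt p.1 p.2)

theorem ru_eq (p : ℝ × Sp) : ru U p = radialDeriv U (pt p.1 p.2) := by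
  unfold ru radialDeriv
  simp only [pt_div_norm]
  rfl

theorem ru_eq' (p : ℝ × Sp) : ru U p = rd U (pt p.1 p.2) := ru_eq p

theorem Gc_eq (i j : Fin 3) (p : ℝ × Sp) : Gc F r U V i j p =
    -(F (U (pt p.1 p.2)) (V (pt p.1 p.2)) * (pd i U (pt p.1 p.2) * pd j V (pt p.1 p.2)
      + pd i V (pt p.1 p.2) * pd j U (pt p.1 p.2))) / 2
      + Bf r U V (pt p.1 p.2) * (dl i j - nu i p * nu j p) := by
  unfold Gc sliceMetric Bf
  simp only [Matrix.of_apply, pt_div_norm]
  rfl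

/-- the tangential vector -/
noncomputable def cv (F r : ℝ → ℝ → ℝ) (U V : E3 → ℝ) (i : Fin 3) (p : ℝ × Sp) : ℝ :=
  F (U (pt p.1 p.2)) (V (pt p.1 p.2)) * (ru V p * pd i U (pt p.1 p.2)
    - ru U p * pd i V (pt p.1 p.2)) / (2 * Real.sqrt (gA (Gc F r U V) p))

theorem gA_eq (p : ℝ × Sp) : gA (Gc F r U V) p =
    -(F (U (pt p.1 p.2)) (V (pt p.1 p.2)) * ru U p * ru V p) := by
  have h := (algebra_metric (nu_sq p) (M := fun i j => Gc F r U V i j p) fun i j =>
    Gc_eq i j p).1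
  exact h

theorem gA_pos (hS : SphericalSpacetime W F r) (hT : TwoEndedSlice W F r U V) (p : ℝ × Sp) :
    0 < gA (Gc F r U V) p := by
  have h1 := hT.outward _ (pt_ne_zero p.1 p.2)
  have h2 := hS.F_pos _ _ (memW hT (pt_mem p.1 p.2))
  rw [gA_eq, ru_eq, ru_eq]
  have := mul_pos (mul_pos h2 (neg_pos.2 h1.1)) h1.2
  linarith

theorem cv_nu (p : ℝ × Sp) : nu 0 p * cv F r U V 0 p + nu 1 p * cv F r U V 1 p
    + nu 2 p * cv F r U V 2 p = 0 := by
  have h1 : ru U p = nu 0 p * pd 0 U (pt p.1 p.2) + nu 1 p * pd 1 U (pt p.1 p.2)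
      + nu 2 p * pd 2 U (pt p.1 p.2) := by unfold ru; rw [Fin.sum_univ_three]
  have h2 : ru V p = nu 0 p * pd 0 V (pt p.1 p.2) + nu 1 p * pd 1 V (pt p.1 p.2)
      + nu 2 p * pd 2 V (pt p.1 p.2) := by unfold ru; rw [Fin.sum_univ_three]
  unfold cv
  rw [h1, h2]
  ring

theorem gN_eq (hS : SphericalSpacetime W F r) (hT : TwoEndedSlice W F r U V) (i j : Fin 3)
    (p : ℝ × Sp) : gN (Gc F r U V) i j p
      = Bf r U V (pt p.1 p.2) * (dl i j - nu i p * nu j p)
        - cv F r U V i p * cv F r U V j p := by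
  have hA := gA_pos hS hT p
  have hAe := gA_eq (F := F) (r := r) (U := U) (V := V) p
  have h2 : ∀ k, (∑ j, Gc F r U V k j p * nu j p) = -(F (U (pt p.1 p.2)) (V (pt p.1 p.2)) / 2
      * (pd k U (pt p.1 p.2) * ru V p + pd k V (pt p.1 p.2) * ru U p)) :=
    (algebra_metric (nu_sq p) (M := fun i j => Gc F r U V i j p) fun i j => Gc_eq i j p).2
  have hw : ∀ k, gw (Gc F r U V) k p = -(F (U (pt p.1 p.2)) (V (pt p.1 p.2)) / 2
      * (pd k U (pt p.1 p.2) * ru V p + pd k V (pt p.1 p.2) * ru U p))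
      - gA (Gc F r U V) p * nu k p := fun k => by
    unfold gw
    rw [h2 k]
  have hsq : Real.sqrt (gA (Gc F r U V) p) * Real.sqrt (gA (Gc F r U V) p)
      = gA (Gc F r U V) p := Real.mul_self_sqrt hA.le
  have hc : cv F r U V i p * cv F r U V j p = F (U (pt p.1 p.2)) (V (pt p.1 p.2)) ^ 2
      * (ru V p * pd i U (pt p.1 p.2) - ru U p * pd i V (pt p.1 p.2))
      * (ru V p * pd j U (pt p.1 p.2) - ru U p * pd j V (pt p.1 p.2))
      / (4 * gA (Gc F r U V) p) := by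
    unfold cv
    rw [div_mul_div_comm, show 2 * Real.sqrt (gA (Gc F r U V) p)
      * (2 * Real.sqrt (gA (Gc F r U V) p)) = 4 * gA (Gc F r U V) p by linear_combination 4 * hsq]
    congr 1
    ring
  unfold gN
  rw [hw, hw, hc, Gc_eq]
  set A := gA (Gc F r U V) p
  set φ := F (U (pt p.1 p.2)) (V (pt p.1 p.2))
  set α := ru U p
  set β := ru V p
  set ai := pd i U (pt p.1 p.2)
  set aj := pd j U (pt p.1 p.2)
  set bi := pd i V (pt p.1 p.2)
  set bj := pd j V (pt p.1 p.2)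
  have hA0 : A ≠ 0 := hA.ne'
  field_simp
  rw [hAe]
  ring

end

end Pool.Agent.PenroseSlice
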